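import Pool.Agent.H579.D.MainF
import Pool.Graph.R_pool_sql_team_seeded_47a924f7.T6.H3.FF.Conv
import Pool.Graph.R_seed8.Y697.GJ.LiftC
import Pool.Graph.R_seed8.R460.GP.Asm

set_option autoImplicit false

/-! Primes in the translates of arbitrary sets: assembly. -/

namespace Pool.Agent.H579.Dk

open Finset
open Pool.Agent.T6.H3.FF
open Pool.Agent.R460.GS (tiMaj2)
open Pool.Agent.R460.GH (bilMaj3 countK)
open Pool.Agent.H373R2.T7 (lamz Vz pz)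

theorem errPF_all : ErrPFStm :=
  errPF (core5P Pool.Agent.Y697.GJ.liftC Pool.Agent.Y708.GJ.lift Pool.Agent.Y697.GJ.parsC Pool.Agent.Y872.GJ.pars
      Pool.Agent.Y297.GJ.orth Pool.Agent.Y812.GJ.nonU)
    Pool.Agent.Y812.GJ.l2
    (bilMaj3 Pool.Agent.Y812.GJ.l2 (countK Pool.Agent.Y812.GJ.l2))
    Pool.Agent.Y909.GJ.bilMin (tiMaj2 Pool.Agent.Y812.GJ.l2) Pool.Agent.Y412.GJ.tiMin
    Pool.Agent.Y812.GJ.lsh_le Pool.Agent.Y883.GJ.model_all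

theorem errPT_all : ErrPTStm :=
  errPT (core4P Pool.Agent.Y697.GJ.liftC Pool.Agent.Y708.GJ.lift Pool.Agent.Y697.GJ.parsC Pool.Agent.Y872.GJ.pars
      Pool.Agent.Y297.GJ.orth Pool.Agent.Y812.GJ.nonU)
    Pool.Agent.Y235.GJ.vau Pool.Agent.Y662.GJ.jac Pool.Agent.Y812.GJ.l2
    (bilMaj3 Pool.Agent.Y812.GJ.l2 (countK Pool.Agent.Y812.GJ.l2))
    Pool.Agent.Y909.GJ.bilMin (tiMaj2 Pool.Agent.Y812.GJ.l2) Pool.Agent.Y412.GJ.tiMin
    Pool.Agent.Y812.GJ.lsh_le Pool.Agent.Y883.GJ.model_all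

/-- the number of `s ∈ S` for which `s + h` is a prime -/
noncomputable def primesIn (S : Set ℕ) (h : ℤ) : ℕ :=
  Set.ncard {s : ℕ | s ∈ S ∧ ∃ p : ℕ, p.Prime ∧ (s : ℤ) + h = p}

/-- the number of `s ∈ S` for which `s + h` is positive and has no prime factor up to `z` -/
noncomputable def roughIn (z : ℕ) (S : Set ℕ) (h : ℤ) : ℕ :=
  Set.ncard {s : ℕ | s ∈ S ∧ 0 < (s : ℤ) + h ∧ ∀ p : ℕ, p.Prime → p ≤ z → ¬ (p : ℤ) ∣ s + h}

lemma primesIn_eq (S : Finset ℕ) (h : ℤ) : primesIn (S : Set ℕ) h = ((tr' S h).filter Nat.Prime).card := by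
  classical
  unfold primesIn
  have e : {s : ℕ | s ∈ (S : Set ℕ) ∧ ∃ p : ℕ, p.Prime ∧ (s : ℤ) + h = p} =
      ((S.filter (fun s : ℕ => ((s : ℤ) + h).toNat.Prime) : Finset ℕ) : Set ℕ) := by
    ext s
    rw [mem_coe, mem_filter]
    constructor
    · rintro ⟨h1, p, hp, h2⟩
      refine ⟨h1, ?_⟩
      have : ((s : ℤ) + h).toNat = p := by omega
      rw [this]
      exact hp
    · rintro ⟨h1, h2⟩
      refine ⟨h1, _, h2, ?_⟩
      have := h2.pos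
      omega
  rw [e, Set.ncard_coe_finset]
  refine card_bij (fun s _ => ((s : ℤ) + h).toNat) ?_ ?_ ?_
  · intro s hs
    rw [mem_filter] at hs
    have := hs.2.pos
    rw [mem_filter, mem_tr']
    exact ⟨⟨this, s, hs.1, by omega⟩, hs.2⟩
  · intro x hx y hy hxy
    rw [mem_filter] at hx hy
    have h1 := hx.2.pos
    have h2 := hy.2.pos
    omega
  · intro m hm
    rw [mem_filter, mem_tr'] at hm
    obtain ⟨⟨h1, s, hs, h2⟩, h3⟩ := hm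
    refine ⟨s, ?_, by omega⟩
    rw [mem_filter]
    refine ⟨hs, ?_⟩
    have : ((s : ℤ) + h).toNat = m := by omega
    rw [this]
    exact h3

lemma roughIn_eq (z : ℕ) (S : Finset ℕ) (h : ℤ) :
    ∑ m ∈ tr' S h, lamz z m = (roughIn z (S : Set ℕ) h : ℝ) * (Vz z)⁻¹ := by
  classical
  unfold lamz
  rw [← sum_filter, sum_const, nsmul_eq_mul]
  congr 2
  unfold roughIn
  have e : {s : ℕ | s ∈ (S : Set ℕ) ∧ 0 < (s : ℤ) + h ∧ ∀ p : ℕ, p.Prime → p ≤ z → ¬ (p : ℤ) ∣ s + h} =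
      ((S.filter (fun s : ℕ => 0 < (s : ℤ) + h ∧ ∀ p : ℕ, p.Prime → p ≤ z → ¬ (p : ℤ) ∣ s + h) : Finset ℕ) :
        Set ℕ) := by
    ext s
    rw [mem_coe, mem_filter]
    rfl
  rw [e, Set.ncard_coe_finset]
  symm
  refine card_bij (fun s _ => ((s : ℤ) + h).toNat) ?_ ?_ ?_
  · intro s hs
    rw [mem_filter] at hs
    obtain ⟨h1, h2, h3⟩ := hs
    rw [mem_filter, mem_tr']
    refine ⟨⟨by omega, s, h1, by omega⟩, fun p hp hpd => ?_⟩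
    rw [Pool.Agent.H373R2.T7.mem_pz] at hp
    refine h3 p hp.2 hp.1 ?_
    have : ((((s : ℤ) + h).toNat : ℕ) : ℤ) = s + h := by omega
    rw [← this]
    exact_mod_cast hpd
  · intro x hx y hy hxy
    rw [mem_filter] at hx hy
    obtain ⟨h1, h2, h3⟩ := hx
    obtain ⟨h4, h5, h6⟩ := hy
    omega
  · intro m hm
    rw [mem_filter, mem_tr'] at hm
    obtain ⟨⟨h1, s, hs, h2⟩, h3⟩ := hm
    refine ⟨s, ?_, by omega⟩
    rw [mem_filter]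
    refine ⟨hs, by omega, fun p hp hpz hpd => ?_⟩
    refine h3 p (Pool.Agent.H373R2.T7.mem_pz.2 ⟨hpz, hp⟩) ?_
    rw [← h2] at hpd
    exact_mod_cast hpd

/-- **Primes in the translates of arbitrary sets, in all residue classes of regular moduli.** -/
theorem sets_all (ρ : ℝ) (hρ : 0 < ρ) (A : ℕ) :
    ∃ c : ℕ, ∀ A₀ : ℕ, ∃ B : ℕ, ∀ E : ℕ, B ≤ E → ∃ N₀ : ℕ, ∀ N : ℕ, N₀ ≤ N →
      ∃ D : Finset ℕ, (D.card : ℝ) ≤ Real.log N ^ c ∧ (∀ d ∈ D, Real.log N ^ A₀ < (d : ℝ)) ∧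
      ∀ q : ℕ, 1 ≤ q → (q : ℝ) ≤ (N : ℝ) ^ (4 / 5 - ρ) → (∀ d ∈ D, ¬ d ∣ q) → ∀ a : ℤ, ∀ S : Set ℕ,
        S ⊆ Set.Icc 1 N →
        ({h : ℤ | |h| ≤ N ∧ h ≡ a [ZMOD q] ∧ (primesIn S h : ℝ) <
          1 / 8 * (roughIn ⌈Real.log N ^ E⌉₊ S h / (Vz ⌈Real.log N ^ E⌉₊ * Real.log N)) -
            N / Real.log N ^ A}.ncard : ℝ) ≤ (N : ℝ) / (q * Real.log N ^ A) := by
  classical
  obtain ⟨c, h1⟩ := sets_main errPF_all ρ hρ A
  refine ⟨c, fun A₀ => ?_⟩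
  obtain ⟨B, h2⟩ := h1 A₀
  refine ⟨B, fun E hE => ?_⟩
  obtain ⟨N₁, h3⟩ := h2 E hE
  obtain ⟨N₂, h4⟩ := Filter.eventually_atTop.1 (Pool.Agent.Y614.GJ.Core.ev_log 1 (s := 1) (by norm_num) 1)
  refine ⟨N₁ + N₂ + 1, fun N hN => ?_⟩
  obtain ⟨D, hD1, hD2, h5⟩ := h3 N (by omega)
  obtain ⟨hL1, -⟩ := h4 N (by omega)
  refine ⟨D, hD1, hD2, fun q hq1 hqN hqD a S hS => ?_⟩
  have hfin : S.Finite := (Set.finite_Icc 1 N).subset hS
  have hSf : S = ((hfin.toFinset : Finset ℕ) : Set ℕ) := hfin.coe_toFinset.symm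
  have hSs : hfin.toFinset ⊆ Icc 1 N := by
    intro s hs
    have := hS (hfin.mem_toFinset.1 hs)
    exact mem_Icc.2 this
  refine le_trans ?_ (h5 q hq1 hqN hqD a hfin.toFinset hSs)
  obtain ⟨z, hz⟩ : ∃ z, z = ⌈Real.log N ^ E⌉₊ := ⟨_, rfl⟩
  rw [← hz]
  have hsub : {h : ℤ | |h| ≤ N ∧ h ≡ a [ZMOD q] ∧ (primesIn S h : ℝ) <
      1 / 8 * (roughIn z S h / (Vz z * Real.log N)) - N / Real.log N ^ A} ⊆
      ((bads A N z q a hfin.toFinset : Finset ℤ) : Set ℤ) := by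
    rintro h ⟨k1, k2, k3⟩
    rw [mem_coe]
    unfold bads
    rw [abs_le] at k1
    rw [mem_filter, mem_Icc]
    refine ⟨k1, k2, ?_⟩
    rw [roughIn_eq, ← primesIn_eq, ← hSf]
    have hV := Pool.Agent.H373R2.T7.Vz_pos z
    obtain ⟨L, hL⟩ : ∃ L, L = Real.log (N : ℝ) := ⟨_, rfl⟩
    rw [← hL] at k3 hL1 ⊢
    have hL0 : 0 < L := by linarith
    obtain ⟨R, hR⟩ : ∃ R : ℝ, R = (roughIn z S h : ℝ) := ⟨_, rfl⟩
    have hR0 : 0 ≤ R := by rw [hR]; exact Nat.cast_nonneg _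
    rw [← hR] at k3 ⊢
    have e1 : L * (1 / 8 * (R / (Vz z * L)) - N / L ^ A) = 1 / 8 * (R * (Vz z)⁻¹) - L * (N / L ^ A) := by
      have := hV.ne'
      field_simp
    have e2 := mul_lt_mul_of_pos_left k3 hL0
    rw [e1] at e2
    have e3 : 0 ≤ R * (Vz z)⁻¹ := mul_nonneg hR0 (inv_pos.2 hV).le
    have e4 : (N : ℝ) / L ^ A ≤ L * (N / L ^ A) := by
      have : 0 ≤ (N : ℝ) / L ^ A := by positivity
      nlinarith
    linarith
  have := Set.ncard_le_ncard hsub (Finset.finite_toSet _)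
  rw [Set.ncard_coe_finset] at this
  exact_mod_cast this

end Pool.Agent.H579.Dk
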