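import Pool.Agent.H579.D.LowF
import Pool.Agent.H579.D.ErrP
import Pool.Graph.R_seed8.R460.GP.Low

set_option autoImplicit false

/-! Primes in the translates of arbitrary sets: the number of the exceptional translates in a residue class. -/

namespace Pool.Agent.H579.Dk

open Finset
open Pool.Agent.T6.H3.FF
open Pool.Agent.R460.GS (BdAt la la_nn vm_le one_le_div)
open Pool.Agent.R460.GP (cvd)
open Pool.Agent.H373R2.T7 (lamz Vz pz Vz_pos Vz_inv_small)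
open Pool.Agent.Y883.T3 (lsh)
open Pool.Agent.Y883.GJ
open Pool.Agent.Y614.GJ.Core (ev_log)

/-- the positive part of the translate `S + h` -/
def tr' (S : Finset ℕ) (h : ℤ) : Finset ℕ :=
  (S.filter (fun s : ℕ => 0 < (s : ℤ) + h)).image (fun s : ℕ => ((s : ℤ) + h).toNat)

lemma mem_tr' {S : Finset ℕ} {h : ℤ} {m : ℕ} : m ∈ tr' S h ↔ 0 < m ∧ ∃ s ∈ S, (m : ℤ) = s + h := by
  unfold tr'
  rw [mem_image]
  constructor
  · rintro ⟨s, hs, rfl⟩
    rw [mem_filter] at hs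
    refine ⟨by omega, s, hs.1, by omega⟩
  · rintro ⟨h0, s, hs, h1⟩
    refine ⟨s, ?_, by omega⟩
    rw [mem_filter]
    exact ⟨hs, by omega⟩

/-- the indicator function of `S` -/
noncomputable def ind (S : Finset ℕ) (n : ℕ) : ℂ := if n ∈ S then 1 else 0

lemma bd_ind {N : ℕ} (S : Finset ℕ) (hL : 1 ≤ Real.log N) : BdAt N (ind S) := by
  intro n hn
  have h1 := one_le_div hn
  have h2 : ‖ind S n‖ ≤ 1 := by
    unfold ind
    split_ifs <;> simp
  refine h2.trans ?_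
  nlinarith

/-- the correlation with the indicator function -/
lemma cvd_ind {S : Finset ℕ} {N M z r : ℕ} {k : ℤ} (hS : S ⊆ Icc 1 N) (hk : -(N : ℤ) ≤ k)
    (hM : 2 * N ≤ M) : cvd (ind S) (fm M z r) M M k = ((∑ m ∈ tr' S (-k), gR M z r m : ℝ) : ℂ) := by
  classical
  unfold cvd
  have hb : ∀ b ∈ Icc 1 M, (∑ c ∈ Icc 1 M, if (b : ℤ) - c = k then ind S b * (starRingEnd ℂ) (fm M z r c) else 0) =
      if b ∈ S.filter (fun s : ℕ => 0 < (s : ℤ) + -k) then ((gR M z r ((b : ℤ) + -k).toNat : ℝ) : ℂ) else 0 := by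
    intro b hb
    rw [mem_Icc] at hb
    by_cases hbS : b ∈ S
    · have hbN := mem_Icc.1 (hS hbS)
      by_cases hpos : 0 < (b : ℤ) + -k
      · rw [if_pos (mem_filter.2 ⟨hbS, hpos⟩), sum_eq_single ((b : ℤ) + -k).toNat]
        · rw [if_pos (by omega)]
          unfold ind
          rw [if_pos hbS, one_mul, fm_eq, Complex.conj_ofReal]
        · intro c _ hc
          rw [if_neg (by omega)]
        · intro h
          exact absurd (mem_Icc.2 ⟨by omega, by omega⟩) h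
      · rw [if_neg (show ¬ b ∈ S.filter (fun s : ℕ => 0 < (s : ℤ) + -k) from fun h => hpos (mem_filter.1 h).2)]
        refine sum_eq_zero fun c hc => ?_
        rw [mem_Icc] at hc
        rw [if_neg (by omega)]
    · rw [if_neg (show ¬ b ∈ S.filter (fun s : ℕ => 0 < (s : ℤ) + -k) from fun h => hbS (mem_filter.1 h).1)]
      refine sum_eq_zero fun c _ => ?_
      unfold ind
      rw [if_neg hbS]
      simp
  rw [sum_congr rfl hb, ← sum_filter]
  have e : (Icc 1 M).filter (fun b => b ∈ S.filter (fun s : ℕ => 0 < (s : ℤ) + -k)) =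
      S.filter (fun s : ℕ => 0 < (s : ℤ) + -k) := by
    ext b
    rw [mem_filter]
    constructor
    · exact fun h => h.2
    · intro h
      have := mem_Icc.1 (hS (mem_filter.1 h).1)
      exact ⟨mem_Icc.2 ⟨by omega, by omega⟩, h⟩
  rw [e]
  unfold tr'
  rw [sum_image]
  · push_cast
    rfl
  · intro x hx y hy hxy
    rw [mem_coe, mem_filter] at hx hy
    simp only at hxy
    omega

/-- the exceptional translates -/
noncomputable def bads (A N z q : ℕ) (a : ℤ) (S : Finset ℕ) : Finset ℤ :=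
  (Icc (-(N : ℤ)) N).filter (fun h : ℤ => h ≡ a [ZMOD q] ∧
    Real.log N * (((tr' S h).filter Nat.Prime).card : ℝ) <
      138 / 1000 * ∑ m ∈ tr' S h, lamz z m - N / Real.log N ^ A)

theorem sets_main (hErr : ErrPFStm) (ρ : ℝ) (hρ : 0 < ρ) (A : ℕ) :
    ∃ c : ℕ, ∀ A₀ : ℕ, ∃ B : ℕ, ∀ E : ℕ, B ≤ E → ∃ N₀ : ℕ, ∀ N : ℕ, N₀ ≤ N →
      ∃ D : Finset ℕ, (D.card : ℝ) ≤ Real.log N ^ c ∧ (∀ d ∈ D, Real.log N ^ A₀ < (d : ℝ)) ∧
      ∀ q : ℕ, 1 ≤ q → (q : ℝ) ≤ (N : ℝ) ^ (4 / 5 - ρ) → (∀ d ∈ D, ¬ d ∣ q) → ∀ (a : ℤ) (S : Finset ℕ),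
        S ⊆ Icc 1 N → ((bads A N ⌈Real.log N ^ E⌉₊ q a S).card : ℝ) ≤ (N : ℝ) / (q * Real.log N ^ A) := by
  classical
  obtain ⟨V, hV⟩ : ∃ V, V = A + 2 := ⟨_, rfl⟩
  obtain ⟨c, hB⟩ := hErr (3 * A + 8) (V + 6) ρ hρ
  refine ⟨2 * c, fun A₀ => ?_⟩
  obtain ⟨B, hB⟩ := hB A₀
  refine ⟨2 * B, fun E hE => ?_⟩
  obtain ⟨N₁, h1⟩ := hB (E + 1)
  obtain ⟨N₂, h2⟩ := set_lower V (E + 1)
  obtain ⟨N₃, h3⟩ := Filter.eventually_atTop.1 (ev_log 1 (s := 1) (by norm_num) 200)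
  refine ⟨N₁ + N₂ + N₃ + 3, fun N hN => ?_⟩
  have hN1 : 1 ≤ N := by omega
  have hN0 : (0 : ℝ) < N := by exact_mod_cast hN1
  have hN1r : (1 : ℝ) ≤ N := by exact_mod_cast hN1
  obtain ⟨M, hM⟩ : ∃ M, M = 2 * N := ⟨_, rfl⟩
  have hMr : (M : ℝ) = 2 * N := by rw [hM]; push_cast; ring
  obtain ⟨hL200, -⟩ := h3 N (by omega)
  obtain ⟨L, hLd⟩ : ∃ L, L = Real.log (N : ℝ) := ⟨_, rfl⟩
  obtain ⟨L', hLd'⟩ : ∃ L', L' = Real.log (M : ℝ) := ⟨_, rfl⟩
  have hLL' : L ≤ L' := by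
    rw [hLd, hLd']
    exact Real.log_le_log hN0 (by rw [hMr]; linarith)
  rw [← hLd] at hL200 ⊢
  have hLL2 : L' ≤ L + 1 := by
    rw [hLd, hLd', hMr, Real.log_mul (by norm_num) hN0.ne']
    have := Real.log_two_lt_d9
    linarith
  have hL0 : 0 < L := by linarith
  have hL1 : 1 ≤ L := by linarith
  have hL'0 : 0 < L' := by linarith
  have hL'1 : 1 ≤ L' := by linarith
  have hL'L2 : L' ≤ L ^ 2 := by nlinarith
  obtain ⟨D, hDc, hDl, c1⟩ := h1 M (by omega)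
  rw [← hLd'] at hDc hDl c1
  refine ⟨D, ?_, fun d hd => lt_of_le_of_lt (pow_le_pow_left₀ hL0.le hLL' _) (hDl d hd), ?_⟩
  · calc (D.card : ℝ) ≤ L' ^ c := hDc
      _ ≤ (L ^ 2) ^ c := pow_le_pow_left₀ hL'0.le hL'L2 c
      _ = L ^ (2 * c) := by rw [← pow_mul]
  intro q hq1 hqN hqD a S hS
  have : NeZero q := ⟨by omega⟩
  have hq0 : (0 : ℝ) < q := by exact_mod_cast hq1
  -- the parameter `z`
  obtain ⟨z, hz⟩ : ∃ z, z = ⌈L ^ E⌉₊ := ⟨_, rfl⟩
  rw [← hz]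
  have hzlo : L ^ E ≤ z := by rw [hz]; exact Nat.le_ceil _
  have hLE : 1 ≤ L ^ E := one_le_pow₀ hL1
  have hz1 : 1 ≤ z := by
    have : (1 : ℝ) ≤ z := hLE.trans hzlo
    exact_mod_cast this
  have hzhi : (z : ℝ) ≤ L' ^ (E + 1) := by
    have := Nat.ceil_lt_add_one (show 0 ≤ L ^ E by positivity)
    rw [← hz] at this
    calc (z : ℝ) ≤ L ^ E + 1 := this.le
      _ ≤ L ^ E + L ^ E := by linarith
      _ = 2 * L ^ E := by ring
      _ ≤ L * L ^ E := mul_le_mul_of_nonneg_right (by linarith) (by positivity)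
      _ = L ^ (E + 1) := by ring
      _ ≤ L' ^ (E + 1) := pow_le_pow_left₀ hL0.le hLL' _
  have hzB : L' ^ B ≤ z := by
    refine le_trans ?_ hzlo
    calc L' ^ B ≤ (L ^ 2) ^ B := pow_le_pow_left₀ hL'0.le hL'L2 _
      _ = L ^ (2 * B) := by rw [← pow_mul]
      _ ≤ L ^ E := pow_le_pow_right₀ hL1 hE
  obtain ⟨r, hPar, hsum, hms⟩ := c1 z hzB hzhi
  have hlow := h2 M (by omega) z r hz1 (by rw [← hLd']; exact hzhi) (by rw [← hLd']; exact hsum)
  rw [← hLd'] at hlow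
  have hqM : (q : ℝ) ≤ (M : ℝ) ^ (4 / 5 - ρ) := by
    rcases le_or_gt 0 (4 / 5 - ρ) with h | h
    · refine hqN.trans (Real.rpow_le_rpow hN0.le ?_ h)
      rw [hMr]
      linarith
    · exfalso
      have h4 : 1 < (N : ℝ) := by
        by_contra hcon
        have h5 : (N : ℝ) = 1 := le_antisymm (not_lt.1 hcon) hN1r
        rw [h5, Real.log_one] at hLd
        linarith
      have h5 := Real.rpow_lt_one_of_one_lt_of_neg h4 h
      have h6 : (1 : ℝ) ≤ q := by exact_mod_cast hq1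
      linarith
  have hms' := hms (ind S) (bd_ind S (by rw [← hLd']; exact hL'1)) q hqM hqD ((-a : ℤ) : ZMod q) M M le_rfl le_rfl
  obtain ⟨Bd, hBd⟩ : ∃ Bd, Bd = bads A N z q a S := ⟨_, rfl⟩
  rw [← hBd]
  obtain ⟨X, hX⟩ : ∃ X : ℝ, X = N / L ^ A := ⟨_, rfl⟩
  have hX0 : 0 < X := by rw [hX]; positivity
  -- the error term is large at the exceptional translates
  have hbig : ∀ h ∈ Bd, (X / 2) ^ 2 ≤ ‖cvd (ind S) (fm M z r) M M (-h)‖ ^ 2 := by
    intro h hh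
    rw [hBd] at hh
    unfold bads at hh
    rw [mem_filter, mem_Icc, ← hLd, ← hX] at hh
    obtain ⟨⟨k1, k2⟩, -, k3⟩ := hh
    have e1 := cvd_ind (z := z) (r := r) (k := -h) (M := M) hS (by omega) (by omega)
    rw [neg_neg] at e1
    rw [e1, Complex.norm_real, Real.norm_eq_abs]
    have hT : tr' S h ⊆ Icc 1 M := by
      intro m hm
      obtain ⟨m0, s, hs, m1⟩ := mem_tr'.1 hm
      have := mem_Icc.1 (hS hs)
      exact mem_Icc.2 ⟨m0, by omega⟩
    have k4 := hlow (tr' S h) hT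
    obtain ⟨P, hP⟩ : ∃ P : ℝ, P = (((tr' S h).filter Nat.Prime).card : ℝ) := ⟨_, rfl⟩
    obtain ⟨Sg, hSg⟩ : ∃ Sg : ℝ, Sg = ∑ m ∈ tr' S h, lamz z m := ⟨_, rfl⟩
    have hSg0 : 0 ≤ Sg := by
      rw [hSg]
      exact sum_nonneg fun m _ => Pool.Agent.W93.PG.lamz_nn z m
    have hP0 : 0 ≤ P := by rw [hP]; exact Nat.cast_nonneg _
    rw [← hP, ← hSg] at k3 k4
    have k5 : (M : ℝ) / L' ^ V ≤ X / 4 := by
      calc (M : ℝ) / L' ^ V ≤ M / L ^ V :=
            div_le_div_of_nonneg_left (Nat.cast_nonneg _) (by positivity) (pow_le_pow_left₀ hL0.le hLL' _)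
        _ = X * (2 / L ^ 2) := by
            rw [hMr, hX, hV, pow_add]
            field_simp
        _ ≤ X * (1 / 4) := by
            apply mul_le_mul_of_nonneg_left _ hX0.le
            rw [div_le_div_iff₀ (by positivity) (by norm_num)]
            nlinarith
        _ = X / 4 := by ring
    have k6 : L' * P ≤ 139 / 1000 * Sg - X := by
      have q1 : L' * P ≤ (L + 1) * P := mul_le_mul_of_nonneg_right hLL2 hP0
      have q2 : P ≤ 138 / 1000 * Sg / L := by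
        rw [le_div_iff₀ hL0]
        linarith
      have q3 : 138 / 1000 * Sg / L ≤ 1 / 1000 * Sg := by
        rw [div_le_iff₀ hL0]
        nlinarith
      linarith
    have k7 : X / 2 ≤ |∑ m ∈ tr' S h, gR M z r m| := by linarith
    exact pow_le_pow_left₀ (by positivity) k7 2
  have hsumB : ∑ h ∈ Bd, ‖cvd (ind S) (fm M z r) M M (-h)‖ ^ 2 ≤ (M : ℝ) ^ 3 / (q * L' ^ (3 * A + 8)) := by
    refine le_trans ?_ hms'
    rw [← sum_image (f := fun k => ‖cvd (ind S) (fm M z r) M M k‖ ^ 2) (g := fun h : ℤ => -h) (s := Bd)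
      (fun x _ y _ hxy => neg_injective hxy)]
    refine sum_le_sum_of_subset_of_nonneg (fun k hk => ?_) fun _ _ _ => by positivity
    obtain ⟨h, hh, rfl⟩ := mem_image.1 hk
    rw [hBd] at hh
    unfold bads at hh
    rw [mem_filter, mem_Icc] at hh
    obtain ⟨⟨k1, k2⟩, k3, -⟩ := hh
    rw [mem_filter, mem_Icc]
    refine ⟨⟨by omega, by omega⟩, ?_⟩
    have := (ZMod.intCast_eq_intCast_iff h a q).2 k3
    rw [Int.cast_neg, Int.cast_neg, this]
  have hcard : (Bd.card : ℝ) * (X / 2) ^ 2 ≤ (M : ℝ) ^ 3 / (q * L' ^ (3 * A + 8)) := by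
    calc (Bd.card : ℝ) * (X / 2) ^ 2 = ∑ _h ∈ Bd, (X / 2) ^ 2 := by rw [sum_const, nsmul_eq_mul]
      _ ≤ ∑ h ∈ Bd, ‖cvd (ind S) (fm M z r) M M (-h)‖ ^ 2 := sum_le_sum hbig
      _ ≤ _ := hsumB
  have hX2 : 0 < (X / 2) ^ 2 := by positivity
  rw [← le_div_iff₀ hX2] at hcard
  refine hcard.trans ?_
  have e2 : (M : ℝ) ^ 3 / (q * L' ^ (3 * A + 8)) ≤ 8 * (N : ℝ) ^ 3 / (q * L ^ (3 * A + 8)) := by
    rw [hMr, mul_pow]
    norm_num
    apply div_le_div_of_nonneg_left (by positivity) (by positivity)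
    exact mul_le_mul_of_nonneg_left (pow_le_pow_left₀ hL0.le hLL' _) hq0.le
  rw [div_le_iff₀ hX2]
  refine e2.trans ?_
  rw [hX]
  have e3 : (N : ℝ) / (q * L ^ A) * (N / L ^ A / 2) ^ 2 = (N : ℝ) ^ 3 / (q * L ^ (3 * A + 8)) * (L ^ 8 / 4) := by
    rw [show 3 * A + 8 = A + A + A + 8 by ring, pow_add, pow_add, pow_add]
    field_simp
    try ring
  rw [e3]
  have e4 : (8 : ℝ) ≤ L ^ 8 / 4 := by
    have : L ≤ L ^ 8 := by
      calc L = L ^ 1 := (pow_one _).symm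
        _ ≤ L ^ 8 := pow_le_pow_right₀ hL1 (by norm_num)
    linarith
  calc 8 * (N : ℝ) ^ 3 / (q * L ^ (3 * A + 8)) = (N : ℝ) ^ 3 / (q * L ^ (3 * A + 8)) * 8 := by ring
    _ ≤ _ := mul_le_mul_of_nonneg_left e4 (by positivity)

end Pool.Agent.H579.Dk
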