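import Pool.Agent.H579.D.PairLow

set_option autoImplicit false

/-! Prime pairs: from the grid to all windows, and the number of exceptions (adapted from `R460/GP/Fin`). -/

namespace Pool.Agent.H579.Dk

open Finset
open Pool.Agent.T6.H3.FF
open Pool.Agent.R460.GS (la la_nn vm_le one_le_sing)
open Pool.Agent.R460.GP (cvd wnp wnp_le wnp_mono cntP sum_neg_le)
open Pool.Agent.H373R2.T7 (lamz Vz pz lamI lamzI Vz_pos)
open Pool.Agent.Y883.T3 (lsh)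
open Pool.Agent.Y883.GJ
open Pool.Agent.H560R3.GB (sing)
open Pool.Agent.Y614.GJ.Core (ev_log)

/-- at least `130 / 1000` of the expected number of prime pairs with difference `h`, in all windows -/
def PairL4 (A N h : ℕ) : Prop :=
  ∀ y₁ y₂ : ℕ, y₁ < y₂ → y₂ + h ≤ N → (N : ℝ) / Real.log N ^ A ≤ (y₂ : ℝ) - y₁ →
    130 / 1000 * (sing h * ((y₂ : ℝ) - y₁) / Real.log N ^ 2) ≤ (cntP h y₁ y₂ : ℝ)

open Classical in
/-- the exceptional even differences in a residue class -/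
noncomputable def badP4 (A N q a : ℕ) : Finset ℕ :=
  (Icc 1 N).filter (fun h => 2 ∣ h ∧ h % q = a % q ∧ ¬ PairL4 A N h)

/-- from the grid to all windows -/
lemma windows_of_gridP4 (A : ℕ) : ∃ N₀ : ℕ, ∀ N : ℕ, N₀ ≤ N → ∀ H : ℕ, 1 ≤ H →
    (H : ℝ) ≤ 2 * (N / Real.log N ^ (2 * A + 4)) → ∀ h : ℕ, sing h ≤ 2 * Real.log N →
    (∀ i j : ℕ, i ≤ j → j * H + h ≤ N →
      139 / 1000 * (sing h * (((j * H : ℕ) : ℝ) - ((i * H : ℕ) : ℝ))) - N / Real.log N ^ (2 * A + 4) ≤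
        wnp h (i * H) (j * H)) → PairL4 A N h := by
  obtain ⟨N₁, h1⟩ := Filter.eventually_atTop.1 (ev_log (3 * A + 10) (s := 1 / 4) (by norm_num) 10000)
  refine ⟨N₁ + 2, fun N hN H hH1 hH h hS2 hgrid y₁ y₂ h12 h2 hlen => ?_⟩
  have hN1 : 1 ≤ N := by omega
  have hN0 : (0 : ℝ) < N := by exact_mod_cast hN1
  obtain ⟨hL, hLp⟩ := h1 N (by omega)
  have h5 := wnp_le (y₁ := y₁) hN1 h2
  obtain ⟨L, hLd⟩ : ∃ L, L = Real.log (N : ℝ) := ⟨_, rfl⟩
  rw [← hLd] at hL hLp hH hS2 hgrid hlen h5 ⊢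
  have hL0 : 0 < L := by linarith
  have hL1 : 1 ≤ L := by linarith
  obtain ⟨Δ, hΔ⟩ : ∃ Δ : ℝ, Δ = (y₂ : ℝ) - y₁ := ⟨_, rfl⟩
  obtain ⟨S, hSd⟩ : ∃ S : ℝ, S = sing h := ⟨_, rfl⟩
  have hS1 : 1 ≤ S := by rw [hSd]; exact one_le_sing h
  rw [← hΔ] at hlen ⊢
  rw [← hSd] at hS2 hgrid ⊢
  have hΔ2 : (N : ℝ) / L ^ (2 * A + 1) ≤ Δ := by
    refine le_trans ?_ hlen
    exact div_le_div_of_nonneg_left hN0.le (by positivity) (pow_le_pow_right₀ hL1 (by omega))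
  have hΔ0 : 0 < Δ := lt_of_lt_of_le (by positivity) hΔ2
  have hV : (N : ℝ) / L ^ (2 * A + 4) ≤ Δ / L ^ 3 := by
    rw [show 2 * A + 4 = (2 * A + 1) + 3 by ring, pow_add, ← div_div]
    exact div_le_div_of_nonneg_right hΔ2 (by positivity)
  have hL3 : Δ / L ^ 3 ≤ Δ / L / 10000 := by
    rw [div_div]
    apply div_le_div_of_nonneg_left hΔ0.le (by positivity)
    have : L ^ 3 = L * (L * L) := by ring
    rw [this]
    have : (10000 : ℝ) ≤ L * L := by nlinarith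
    exact mul_le_mul_of_nonneg_left this hL0.le
  have hΔL : Δ / L ≤ Δ / 10000 := div_le_div_of_nonneg_left hΔ0.le (by norm_num) hL
  have hHΔ : (H : ℝ) ≤ Δ / L / 5000 := by linarith
  have hHΔ' : (H : ℝ) ≤ Δ / 1000 := by
    have : Δ / L / 5000 ≤ Δ / L := div_le_self (by positivity) (by norm_num)
    linarith
  have hH0 : (1 : ℝ) ≤ H := by exact_mod_cast hH1
  -- the points of the grid
  obtain ⟨i, hi⟩ : ∃ i, i = (y₁ + H - 1) / H := ⟨_, rfl⟩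
  obtain ⟨j, hj⟩ : ∃ j, j = (y₂ - 1) / H := ⟨_, rfl⟩
  have hi1 : y₁ ≤ i * H := by
    have h3 := Nat.lt_div_mul_add (a := y₁ + H - 1) (b := H) (by omega)
    rw [← hi] at h3
    omega
  have hi2 : i * H ≤ y₁ + H := by
    have h3 := Nat.div_mul_le_self (y₁ + H - 1) H
    rw [← hi] at h3
    omega
  have hj1 : j * H ≤ y₂ - 1 := by
    rw [hj]
    exact Nat.div_mul_le_self _ _
  have hj2 : y₂ ≤ j * H + H := by
    have h3 := Nat.lt_div_mul_add (a := y₂ - 1) (b := H) (by omega)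
    rw [← hj] at h3
    omega
  have hi2r : ((i * H : ℕ) : ℝ) ≤ y₁ + H := by exact_mod_cast hi2
  have hj2r : (y₂ : ℝ) ≤ ((j * H : ℕ) : ℝ) + H := by exact_mod_cast hj2
  have hij : i ≤ j := by
    by_contra hcon
    have h3 : j * H ≤ i * H := Nat.mul_le_mul_right _ (by omega)
    have h4 : ((j * H : ℕ) : ℝ) ≤ ((i * H : ℕ) : ℝ) := by exact_mod_cast h3
    linarith
  have h3 := hgrid i j hij (by omega)
  have h4 := wnp_mono h hi1 (show j * H ≤ y₂ by omega)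
  have hgap : Δ - 2 * H ≤ ((j * H : ℕ) : ℝ) - ((i * H : ℕ) : ℝ) := by
    rw [hΔ]
    linarith
  have h6 : 139 / 1000 * (S * (Δ - 2 * H)) ≤ 139 / 1000 * (S * (((j * H : ℕ) : ℝ) - ((i * H : ℕ) : ℝ))) := by
    gcongr
  have hSΔ : Δ ≤ S * Δ := by nlinarith
  -- the square root
  have h7 : 4 * √(N : ℝ) * L ^ 2 ≤ Δ / 1000 := by
    refine le_trans ?_ (div_le_div_of_nonneg_right hΔ2 (by norm_num))
    rw [Real.sqrt_eq_rpow, le_div_iff₀ (by norm_num), le_div_iff₀ (by positivity)]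
    calc 4 * (N : ℝ) ^ (1 / 2 : ℝ) * L ^ 2 * 1000 * L ^ (2 * A + 1)
        = (N : ℝ) ^ (1 / 2 : ℝ) * (4000 * (L ^ 2 * L ^ (2 * A + 1))) := by ring
      _ ≤ (N : ℝ) ^ (1 / 2 : ℝ) * (N : ℝ) ^ (1 / 2 : ℝ) := by
          have e4 : 4000 * (L ^ 2 * L ^ (2 * A + 1)) ≤ (N : ℝ) ^ (1 / 2 : ℝ) := by
            calc 4000 * (L ^ 2 * L ^ (2 * A + 1)) ≤ L * (L ^ 2 * L ^ (2 * A + 1)) := by
                  gcongr
                  linarith
              _ = L ^ (2 * A + 4) := by ring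
              _ ≤ L ^ (3 * A + 10) := pow_le_pow_right₀ hL1 (by omega)
              _ ≤ (N : ℝ) ^ (1 / 4 : ℝ) := hLp
              _ ≤ (N : ℝ) ^ (1 / 2 : ℝ) :=
                  Real.rpow_le_rpow_of_exponent_le (by exact_mod_cast hN1) (by norm_num)
          gcongr
      _ = N := by
          rw [← Real.rpow_add hN0]
          norm_num
  have h8 : S * H ≤ Δ / 1000 := by
    calc S * H ≤ (2 * L) * (Δ / L / 5000) := by gcongr
      _ = Δ / 2500 := by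
          field_simp
          ring
      _ ≤ Δ / 1000 := by linarith
  have h9 : 130 / 1000 * (S * Δ) ≤ L ^ 2 * (cntP h y₁ y₂ : ℝ) := by
    have k1 : 139 / 1000 * (S * (Δ - 2 * H)) = 139 / 1000 * (S * Δ) - 278 / 1000 * (S * H) := by ring
    rw [k1] at h6
    have k2 : (N : ℝ) / L ^ (2 * A + 4) ≤ Δ / 1000 := by
      have : Δ / L / 10000 ≤ Δ / L := div_le_self (by positivity) (by norm_num)
      linarith
    linarith
  have h10 : S * Δ / L ^ 2 * L ^ 2 = S * Δ := div_mul_cancel₀ _ (by positivity)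
  have h11 : 0 < L ^ 2 := by positivity
  have h12' : 130 / 1000 * (S * Δ / L ^ 2) * L ^ 2 ≤ (cntP h y₁ y₂ : ℝ) * L ^ 2 := by
    rw [mul_assoc, h10]
    linarith
  exact le_of_mul_le_mul_right h12' h11

lemma not_smallP4 {N z r n y V : ℕ} (h : ¬ SmallP4 N z r n y V) (hL : 0 < Real.log N) :
    ((N : ℝ) / Real.log N ^ V) ^ 2 ≤ ‖cvd LA (fm N z r) y N (-(n : ℤ))‖ ^ 2 := by
  have hX : 0 ≤ (N : ℝ) / Real.log N ^ V := by positivity
  unfold SmallP4 at h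
  rw [not_le] at h
  exact pow_le_pow_left₀ hX h.le 2

/-- the number of exceptions -/
lemma count_bad4 (A : ℕ) : ∃ N₀ : ℕ, ∀ N : ℕ, N₀ ≤ N → ∀ (z r q a : ℕ) [NeZero q],
    (∀ n : ℕ, 2 ∣ n → n ≠ 0 → ∀ y₁ y₂ : ℕ, y₁ ≤ y₂ → y₂ + n ≤ N → SmallP4 N z r n y₁ (2 * A + 6) →
      SmallP4 N z r n y₂ (2 * A + 6) →
      139 / 1000 * (sing n * ((y₂ : ℝ) - y₁)) - N / Real.log N ^ (2 * A + 4) ≤ wnp n y₁ y₂ ∧
        sing n ≤ 2 * Real.log N) →
    (∀ y₁ y₂ : ℕ, y₁ ≤ N → y₂ ≤ N →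
      ∑ n ∈ (Icc (-(N : ℤ)) N).filter (fun n : ℤ => (n : ZMod q) = -(a : ZMod q)),
        ‖cvd LA (fm N z r) y₁ y₂ n‖ ^ 2 ≤ (N : ℝ) ^ 3 / (q * Real.log N ^ (A + 3 * (2 * A + 4) + 8))) →
    ((badP4 A N q a).card : ℝ) ≤ (N : ℝ) / (q * Real.log N ^ A) := by
  classical
  obtain ⟨V, hV⟩ : ∃ V, V = 2 * A + 4 := ⟨_, rfl⟩
  obtain ⟨N₃, h3⟩ := windows_of_gridP4 A
  obtain ⟨N₄, h4⟩ := Filter.eventually_atTop.1 (ev_log (V + A + 4) (s := 3 / 10) (by norm_num) 100)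
  refine ⟨N₃ + N₄ + 3, fun N hN z r q a _ c2' hms => ?_⟩
  have hN1 : 1 ≤ N := by omega
  have hN0 : (0 : ℝ) < N := by exact_mod_cast hN1
  have hN1r : (1 : ℝ) ≤ N := by exact_mod_cast hN1
  obtain ⟨hL100, hLp⟩ := h4 N (by omega)
  have c3 := h3 N (by omega)
  rw [show 2 * A + 6 = V + 2 by omega, ← hV] at c2'
  rw [← hV] at hms c3
  obtain ⟨L, hLd⟩ : ∃ L, L = Real.log (N : ℝ) := ⟨_, rfl⟩
  rw [← hLd] at c2' c3 hL100 hLp hms ⊢
  have hL0 : 0 < L := by linarith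
  have hL1 : 1 ≤ L := by linarith
  have hq1 : 1 ≤ q := NeZero.pos q
  have hq0 : (0 : ℝ) < q := by exact_mod_cast hq1
  -- the grid
  obtain ⟨Tg, hTg⟩ : ∃ Tg, Tg = ⌈L ^ V⌉₊ := ⟨_, rfl⟩
  have hT1 : L ^ V ≤ Tg := by rw [hTg]; exact Nat.le_ceil _
  have hLV : 1 ≤ L ^ V := one_le_pow₀ hL1
  have hT2 : (Tg : ℝ) ≤ L ^ V + 1 := by
    rw [hTg]
    exact (Nat.ceil_lt_add_one (by positivity)).le
  have hTpos : 0 < Tg := by
    have : (0 : ℝ) < Tg := by linarith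
    exact_mod_cast this
  obtain ⟨H, hH⟩ : ∃ H, H = N / Tg + 1 := ⟨_, rfl⟩
  have hH1 : 1 ≤ H := by rw [hH]; exact Nat.le_add_left 1 _
  have hpow1 : (N : ℝ) ^ (3 / 10 : ℝ) ≤ N := by
    calc (N : ℝ) ^ (3 / 10 : ℝ) ≤ (N : ℝ) ^ (1 : ℝ) := Real.rpow_le_rpow_of_exponent_le hN1r (by norm_num)
      _ = N := Real.rpow_one _
  have hHr : (H : ℝ) ≤ 2 * (N / L ^ V) := by
    rw [hH]
    push_cast
    have e1 : ((N / Tg : ℕ) : ℝ) ≤ N / L ^ V := by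
      calc ((N / Tg : ℕ) : ℝ) ≤ (N : ℝ) / Tg := Nat.cast_div_le
        _ ≤ N / L ^ V := div_le_div_of_nonneg_left hN0.le (by positivity) hT1
    have e2 : 1 ≤ (N : ℝ) / L ^ V := by
      rw [le_div_iff₀ (by positivity), one_mul]
      exact (pow_le_pow_right₀ hL1 (by omega)).trans (hLp.trans hpow1)
    linarith
  have hjT : ∀ j : ℕ, j * H ≤ N → j < Tg + 1 := by
    intro j hj
    by_contra hcon
    have e1 : (Tg + 1) * H ≤ j * H := Nat.mul_le_mul_right _ (by omega)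
    have e2 : N < Tg * H := by
      rw [hH]
      have := Nat.lt_mul_div_succ N hTpos
      exact this
    have e3 : Tg * H ≤ (Tg + 1) * H := Nat.mul_le_mul_right _ (by omega)
    omega
  obtain ⟨Bd, hBd⟩ : ∃ Bd, Bd = badP4 A N q a := ⟨_, rfl⟩
  rw [← hBd]
  have hmem : ∀ n ∈ Bd, 1 ≤ n ∧ n ≤ N ∧ 2 ∣ n ∧ n % q = a % q ∧ ¬ PairL4 A N n := by
    intro n hn
    rw [hBd] at hn
    unfold badP4 at hn
    rw [mem_filter, mem_Icc] at hn
    exact ⟨hn.1.1, hn.1.2, hn.2.1, hn.2.2.1, hn.2.2.2⟩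
  obtain ⟨J, hJ⟩ : ∃ J, J = (range (Tg + 1)).filter (fun j => j * H ≤ N) := ⟨_, rfl⟩
  have hterm : ∀ n ∈ Bd, ((N : ℝ) / L ^ (V + 2)) ^ 2 ≤
      ∑ j ∈ J, ‖cvd LA (fm N z r) (j * H) N (-(n : ℤ))‖ ^ 2 := by
    intro n hn
    obtain ⟨a1, a2, a3, a4, a5⟩ := hmem n hn
    by_contra hcon
    rw [not_le] at hcon
    have hsm : ∀ j : ℕ, j * H ≤ N → SmallP4 N z r n (j * H) (V + 2) := by
      intro j hj
      by_contra hns
      have k1 := not_smallP4 hns (by rw [← hLd]; exact hL0)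
      rw [← hLd] at k1
      have k2 : ‖cvd LA (fm N z r) (j * H) N (-(n : ℤ))‖ ^ 2 ≤
          ∑ j ∈ J, ‖cvd LA (fm N z r) (j * H) N (-(n : ℤ))‖ ^ 2 := by
        refine single_le_sum (f := fun j => ‖cvd LA (fm N z r) (j * H) N (-(n : ℤ))‖ ^ 2)
          (fun _ _ => sq_nonneg _) ?_
        rw [hJ, mem_filter, mem_range]
        exact ⟨hjT j (by omega), by omega⟩
      linarith
    have hS2 := (c2' n a3 (by omega) 0 0 le_rfl (by omega) (by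
      have := hsm 0 (by omega)
      rwa [zero_mul] at this) (by
      have := hsm 0 (by omega)
      rwa [zero_mul] at this)).2
    apply a5
    refine c3 H hH1 hHr n hS2 ?_
    intro i j hij hj
    have hle : i * H ≤ j * H := Nat.mul_le_mul_right _ hij
    exact (c2' n a3 (by omega) (i * H) (j * H) hle hj (hsm i (by omega)) (hsm j (by omega))).1
  have hcls : ∀ n ∈ Bd, n ∈ (Icc 1 N).filter (fun n : ℕ => (n : ZMod q) = (a : ZMod q)) := by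
    intro n hn
    obtain ⟨a1, a2, a3, a4, a5⟩ := hmem n hn
    rw [mem_filter, mem_Icc]
    exact ⟨⟨a1, a2⟩, (ZMod.natCast_eq_natCast_iff' n a q).2 a4⟩
  obtain ⟨R, hR⟩ : ∃ R : ℝ, R = (N : ℝ) ^ 3 / (q * L ^ (A + 3 * V + 8)) := ⟨_, rfl⟩
  have hR0 : 0 < R := by rw [hR]; positivity
  have hEsum : ∀ j ∈ J, ∑ n ∈ (Icc 1 N).filter (fun n : ℕ => (n : ZMod q) = (a : ZMod q)),
      ‖cvd LA (fm N z r) (j * H) N (-(n : ℤ))‖ ^ 2 ≤ R := by
    intro j hj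
    rw [hJ, mem_filter] at hj
    have k1 := (sum_neg_le (fun k => ‖cvd LA (fm N z r) (j * H) N k‖ ^ 2) (fun _ => sq_nonneg _) q N a).trans
      (hms (j * H) N hj.2 le_rfl)
    rw [← hR] at k1
    exact k1
  have hJc : (J.card : ℝ) ≤ 3 * L ^ V := by
    have e1 : J.card ≤ Tg + 1 := by
      rw [hJ]
      exact (card_filter_le _ _).trans (card_range _).le
    have e2 : (J.card : ℝ) ≤ Tg + 1 := by exact_mod_cast e1
    linarith
  have hsum2 : (Bd.card : ℝ) * (N / L ^ (V + 2)) ^ 2 ≤ 3 * L ^ V * R := by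
    calc (Bd.card : ℝ) * (N / L ^ (V + 2)) ^ 2 = ∑ _n ∈ Bd, ((N : ℝ) / L ^ (V + 2)) ^ 2 := by
          rw [sum_const, nsmul_eq_mul]
      _ ≤ ∑ n ∈ Bd, ∑ j ∈ J, ‖cvd LA (fm N z r) (j * H) N (-(n : ℤ))‖ ^ 2 := sum_le_sum hterm
      _ ≤ ∑ n ∈ (Icc 1 N).filter (fun n : ℕ => (n : ZMod q) = (a : ZMod q)),
          ∑ j ∈ J, ‖cvd LA (fm N z r) (j * H) N (-(n : ℤ))‖ ^ 2 :=
          sum_le_sum_of_subset_of_nonneg hcls fun n _ _ => sum_nonneg fun j _ => sq_nonneg _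
      _ = ∑ j ∈ J, ∑ n ∈ (Icc 1 N).filter (fun n : ℕ => (n : ZMod q) = (a : ZMod q)),
          ‖cvd LA (fm N z r) (j * H) N (-(n : ℤ))‖ ^ 2 := sum_comm
      _ ≤ ∑ j ∈ J, R := sum_le_sum hEsum
      _ = (J.card : ℝ) * R := by rw [sum_const, nsmul_eq_mul]
      _ ≤ (3 * L ^ V) * R := by gcongr
      _ = _ := by ring
  have hB2c : (Bd.card : ℝ) ≤ N / (q * L ^ (A + 2)) := by
    have h4 : 3 * L ^ V * R ≤ (N / (q * L ^ (A + 2))) * (N / L ^ (V + 2)) ^ 2 := by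
      have e1 : (N / (q * L ^ (A + 2))) * (N / L ^ (V + 2)) ^ 2 =
          (N : ℝ) ^ 3 / (q * L ^ (A + 3 * V + 8)) * (L ^ V * L ^ 2) := by
        have e2 : L ^ (A + 3 * V + 8) = L ^ A * (L ^ V) ^ 3 * L ^ 8 := by
          rw [← pow_mul, ← pow_add, ← pow_add]
          congr 1
          ring
        rw [e2, pow_add, pow_add]
        have e0 : L ^ V ≠ 0 := by positivity
        have e3 : L ^ A ≠ 0 := by positivity
        generalize L ^ V = X at e0 ⊢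
        generalize L ^ A = Y at e3 ⊢
        field_simp
      rw [e1, ← hR]
      have e4 : (3 : ℝ) ≤ L ^ 2 := by nlinarith
      calc 3 * L ^ V * R = R * (L ^ V * 3) := by ring
        _ ≤ R * (L ^ V * L ^ 2) := by gcongr
    exact le_of_mul_le_mul_right (hsum2.trans h4) (by positivity)
  refine hB2c.trans ?_
  apply div_le_div_of_nonneg_left hN0.le (by positivity)
  have : L ^ A ≤ L ^ (A + 2) := pow_le_pow_right₀ hL1 (by omega)
  gcongr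

end Pool.Agent.H579.Dk
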